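import Pool.Agent.Q268.RB.TaskSymm
import Pool.Agent.Q268.RB.TaskDel1
import Pool.Agent.Q268.RB.TaskDel3
import Pool.Agent.Q268.RB.TaskNum
import Pool.Agent.Q268.RB.TaskE0
import Pool.Agent.Q268.RB.TaskF1
import Pool.Agent.Q268.RB.TaskF2
import Pool.Agent.Q268.RB.TaskF3
import Pool.Agent.Q268.RB.TaskGc
import Pool.Agent.Q268.RB.TaskGs
import Pool.Agent.Q268.RB.TaskG3
import Pool.Agent.Q268.RB.TaskS2
import Pool.Agent.Q268.RB.TaskOne
import Pool.Agent.Q268.RB.TaskBoth
import Pool.Agent.Q268.RB.TaskSumH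
import Pool.Agent.Q268.RB.TaskH
import Pool.Agent.Q268.RB.TaskE
import Pool.Agent.Q268.RB.TaskBal
import Pool.Agent.Q268.RB.TaskLow
import Pool.Agent.Q268.RB.TaskCount
import Pool.Agent.Q268.RB.TaskOpt
import Pool.Agent.Q268.RB.TaskUp
import Pool.Agent.Q268.RB.TaskInt
import Pool.Agent.Q268.RB.TaskLb

/-!
# Rainbow solutions of `x + y < z` in 3-colourings

`MP_21c964_co`, Q1, asks for the constant `c` such that the maximum number of rainbow solutions of
`x + y < z` (`x ≤ y`) over all 3-colourings of `[1, n]` is `(c + o(1)) n ^ 3`. It is conjectured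
that `c = (3 √3 - 5) / 6`, the value of the best colouring by three intervals. This is proved here,
with error `O(n ^ 2)`.

The number of triples with one element in each class is `|A| |B| |C|`; it has to be shown that at
least `m ^ 3 / 6 - O(m ^ 2)` of them, `m` the size of the smallest class, satisfy the weak triangle
inequality. Deleting the last element of a class does not increase the number of these triples, so
the classes may be assumed to have `m` elements. Then the element `1` and the last elements of the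
two other classes are deleted, and the number drops by at least `m ^ 2 / 2 - O(m)`. The paper proof
is due to helper296; the lemmas in `Pool/Agent/Q268/RB` were proved by many members of the team.
-/

set_option autoImplicit false

open Finset Filter Topology Pool.Agent.Q268.RB

namespace Pool.Agent.Results.MP_21c964_co.RainbowConstant

/-- The number of rainbow solutions of `x + y < z` with `x ≤ y` in `[1, n]` under `χ`. -/
def rainbow (n : ℕ) (χ : ℕ → Fin 3) : ℕ :=
  ((Icc 1 n ×ˢ Icc 1 n ×ˢ Icc 1 n).filter (fun t => t.1 ≤ t.2.1 ∧ t.1 + t.2.1 < t.2.2 ∧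
    χ t.1 ≠ χ t.2.1 ∧ χ t.1 ≠ χ t.2.2 ∧ χ t.2.1 ≠ χ t.2.2)).card

/-- The maximum of the number of rainbow solutions over all colourings. -/
noncomputable def RM (n : ℕ) : ℕ := sSup (Set.range (rainbow n))

lemma rainbow_le (n : ℕ) (χ : ℕ → Fin 3) : rainbow n χ ≤ n * (n * n) := by
  unfold rainbow
  refine (card_filter_le _ _).trans ?_
  rw [card_product, card_product]
  simp

lemma bdd (n : ℕ) : BddAbove (Set.range (rainbow n)) :=
  ⟨n * (n * n), by rintro _ ⟨χ, rfl⟩; exact rainbow_le n χ⟩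

lemma RM_max (n : ℕ) : IsGreatest (Set.range (rainbow n)) (RM n) :=
  ⟨Nat.sSup_mem ⟨_, ⟨fun _ => 0, rfl⟩⟩ (bdd n), fun _ hx => le_csSup (bdd n) hx⟩

lemma bound (hUp : TaskUp) (hLb : TaskLb) (n : ℕ) :
    |(RM n : ℝ) - (3 * √3 - 5) / 6 * (n : ℝ) ^ 3| ≤ 10 * (n : ℝ) ^ 2 + 10 := by
  obtain ⟨χ, hχ⟩ := hLb n
  obtain ⟨χ', hχ'⟩ := (RM_max n).1
  have h1 : (rainbow n χ : ℝ) ≤ RM n := by exact_mod_cast (RM_max n).2 ⟨χ, rfl⟩
  have h2 : (RM n : ℝ) ≤ (3 * √3 - 5) / 6 * (n : ℝ) ^ 3 + 5 * (n : ℝ) ^ 2 := by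
    rw [← hχ']; exact hUp n χ'
  have h3 : (3 * √3 - 5) / 6 * (n : ℝ) ^ 3 - 10 * (n : ℝ) ^ 2 - 10 ≤ (rainbow n χ : ℝ) := hχ
  rw [abs_le]
  constructor
  · linarith
  · have : 0 ≤ (n : ℝ) ^ 2 := by positivity
    linarith

lemma lim {c : ℝ} {u : ℕ → ℕ} (h : ∀ n : ℕ, |(u n : ℝ) - c * (n : ℝ) ^ 3| ≤ 10 * (n : ℝ) ^ 2 + 10) :
    Tendsto (fun n : ℕ => (u n : ℝ) / (n : ℝ) ^ 3) atTop (𝓝 c) := by
  rw [tendsto_iff_norm_sub_tendsto_zero]
  have h0 : Tendsto (fun n : ℕ => (20 : ℝ) / (n : ℝ)) atTop (𝓝 0) :=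
    tendsto_const_div_atTop_nhds_zero_nat 20
  refine squeeze_zero' (Eventually.of_forall fun n => norm_nonneg _) ?_ h0
  filter_upwards [eventually_ge_atTop 1] with n hn
  have hn' : (1 : ℝ) ≤ n := by exact_mod_cast hn
  have hpos : (0 : ℝ) < (n : ℝ) ^ 3 := by positivity
  rw [Real.norm_eq_abs]
  have e : (u n : ℝ) / (n : ℝ) ^ 3 - c = ((u n : ℝ) - c * (n : ℝ) ^ 3) / (n : ℝ) ^ 3 := by
    field_simp
  rw [e, abs_div, abs_of_pos hpos, div_le_div_iff₀ hpos (by linarith)]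
  have h1 := h n
  have h2 : 10 * (n : ℝ) ^ 2 + 10 ≤ 20 * (n : ℝ) ^ 2 := by nlinarith
  calc |(u n : ℝ) - c * (n : ℝ) ^ 3| * n ≤ (20 * (n : ℝ) ^ 2) * n := by
        apply mul_le_mul_of_nonneg_right (h1.trans h2) (by linarith)
    _ = 20 * (n : ℝ) ^ 3 := by ring

/-- The maximum `RM n` of the number of rainbow solutions of `x + y < z`, `x ≤ y`, over all
3-colourings of `[1, n]` is attained, differs from `(3 √3 - 5) / 6 * n ^ 3` by at most
`10 n ^ 2 + 10`, and `RM n / n ^ 3` tends to `(3 √3 - 5) / 6`. -/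
theorem result :
    (∀ n, IsGreatest (Set.range (rainbow n)) (RM n)) ∧
    (∀ n : ℕ, |(RM n : ℝ) - (3 * √3 - 5) / 6 * (n : ℝ) ^ 3| ≤ 10 * (n : ℝ) ^ 2 + 10) ∧
    Tendsto (fun n : ℕ => (RM n : ℝ) / (n : ℝ) ^ 3) atTop (𝓝 ((3 * √3 - 5) / 6)) := by
  have hNum := taskNum
  have hG3 := taskG3 hNum Gc.main taskGs
  have hH := taskH hNum (TaskOne.main hNum) (taskBoth hNum) taskSumH
  have hE := taskE hNum taskE0 taskF1 taskF2 taskF3 hG3 taskS2 hH
  have hBal := taskBal TaskSymm.main TaskDel3.main hE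
  have hLow := TaskLow.main TaskSymm.main TaskDel1.main hBal
  have hUp := taskUp taskCount hLow TaskOpt.main
  have hLb := TaskLb.main taskCount taskInt
  exact ⟨RM_max, bound hUp hLb, lim (bound hUp hLb)⟩

end Pool.Agent.Results.MP_21c964_co.RainbowConstant
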